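import Pool.Agent.Work.MP_efd9e3_ag.Fl.FlMain

/-!
# MP_efd9e3_ag: geproci sets have a plane with many points

Let `Z ⊂ ℙⁿ`, `n ≥ 3`, be a finite nondegenerate set.  If its projection from a general point `p` is a complete
intersection of degrees `d_1, …, d_{n-1}` in `ℙⁿ⁻¹`, then there is a plane of `ℙⁿ`, spanned by points of `Z`, which
contains at least `Σ d_i - n + 2` points of `Z`; it contains at least four points of `Z` unless `n = 3`, `|Z| = 4`.
So four general points in `ℙ³` are the only nondegenerate geproci set in linearly general position in any `ℙⁿ`,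
`n ≥ 3`.

Proof (files in `Pool/Agent/Work/MP_efd9e3_ag/Fl/`).  Let `s = Σ d_i - n`.  For general `p` the relations
`Σ_z c_z h(proj_p z) = 0`, `h` of degree `s`, form a line, with all `c_z ≠ 0`, and the relations in degree `s - 1` are
`(ℓ(proj_p z) c_z)_z`, `ℓ` linear.  Take `c_z` polynomial in `p` and differentiate: `D_z c_z = θ_p(z) c_z`, where `D_z`
is the derivative in `p` in the direction `z` and `θ_p` is linear.  Let `S` be an irreducible polynomial in `p`.
If the `z` with `S ∤ c_z` span, then `ord_S D_z c_z ≥ ord_S c_z` for all `z`; if this is so for all `S`, then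
`D_z c_z = 0`, and `F = Σ_z c_z(p) (λ·z)^s` is killed by `Σ_k ∂²/∂λ_k∂p_k` and divisible by `Σ_k λ_k p_k`, which is
impossible.  Otherwise (no common factors) the `z` with `S ∤ c_z` span a proper subspace `W`, which turns out to be
the hyperplane `S = 0`, and the relations can be restricted to `W`.  By induction we come to a three-dimensional
vector subspace, where the remaining points have a relation in degree `s` after projection to `ℙ¹`, so there are at
least `s + 2` of them.
-/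

set_option autoImplicit false

namespace Pool.Agent.Work.MP_efd9e3_ag.Old.RichPlane

theorem result (n : ℕ) (hn : 3 ≤ n) (Z : Finset (Fin (n+1) → ℂ))
    (h0 : ∀ v ∈ Z, v ≠ 0)
    (hZ : ∀ v ∈ Z, ∀ w ∈ Z, ∀ c : ℂ, w = c • v → w = v)
    (hspan : Submodule.span ℂ (Z : Set (Fin (n+1) → ℂ)) = ⊤) :
    ∃ g : MvPolynomial (Fin (n+1)) ℂ, g ≠ 0 ∧
      ∀ p : Fin (n+1) → ℂ, MvPolynomial.eval p g ≠ 0 →
        ∀ π : (Fin (n+1) → ℂ) →ₗ[ℂ] (Fin n → ℂ), LinearMap.ker π = Submodule.span ℂ {p} →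
        ∀ (f : Fin (n-1) → MvPolynomial (Fin n) ℂ) (d : Fin (n-1) → ℕ),
          (∀ i, (f i).IsHomogeneous (d i)) →
          (Ideal.span (Set.range f) : Set (MvPolynomial (Fin n) ℂ)) =
            {q | ∀ v ∈ Z, ∀ c : ℂ, MvPolynomial.eval (c • π v) q = 0} →
          ∃ T : Finset (Fin (n+1) → ℂ), T ⊆ Z ∧
            Module.finrank ℂ (Submodule.span ℂ (T : Set (Fin (n+1) → ℂ))) = 3 ∧
            ∑ i, d i + 2 ≤ T.card + n ∧ (4 ≤ T.card ∨ (n = 3 ∧ Z.card = 4)) := by
  obtain ⟨g, hg0, hg⟩ := Geproci.planes hn Z h0 hZ hspan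
  obtain ⟨g', hg0', hg'⟩ := Geproci.main (by omega : 2 ≤ n) Z h0 hZ hspan
  refine ⟨g * g', mul_ne_zero hg0 hg0', fun p hp π hπ f d hd hf => ?_⟩
  rw [map_mul] at hp
  obtain ⟨T, hT, hfin, hcard⟩ := hg p (left_ne_zero_of_mul hp) π hπ f d hd hf
  obtain ⟨hdn, hZc⟩ := hg' p (right_ne_zero_of_mul hp) π hπ f d hd hf
  refine ⟨T, hT, hfin, hcard, ?_⟩
  have h1 : (n - 1) * (n - 1) ≤ ∑ i, d i := by
    calc (n - 1) * (n - 1) = ∑ _i : Fin (n-1), (n - 1) := by simp
      _ ≤ ∑ i, d i := Finset.sum_le_sum fun i _ => hdn i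
  by_cases h4 : 4 ≤ T.card
  · exact Or.inl h4
  · right
    obtain ⟨k, rfl⟩ : ∃ k, n = k + 3 := ⟨n - 3, by omega⟩
    have h1' : (k + 2) * (k + 2) ≤ ∑ i, d i := h1
    have hk : k = 0 := by
      by_contra hk0
      have h3 : (k + 2) * (k + 2) = k * k + 4 * k + 4 := by ring
      have h5 : 1 ≤ k * k := Nat.mul_pos (by omega) (by omega)
      rw [h3] at h1'
      have h6 : ∑ i, d i ≤ T.card + k + 1 := by omega
      omega
    subst hk
    refine ⟨rfl, ?_⟩
    have h3 : ∑ i, d i = d (0 : Fin 2) + d (1 : Fin 2) := Fin.sum_univ_two d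
    have h5 : ∏ i, d i = d (0 : Fin 2) * d (1 : Fin 2) := Fin.prod_univ_two d
    have h6 : 2 ≤ d (0 : Fin 2) := hdn 0
    have h7 : 2 ≤ d (1 : Fin 2) := hdn 1
    have h8 : d (0 : Fin 2) = 2 := by
      rw [h3] at hcard
      omega
    have h9 : d (1 : Fin 2) = 2 := by
      rw [h3] at hcard
      omega
    rw [hZc, h5, h8, h9]

end Pool.Agent.Work.MP_efd9e3_ag.Old.RichPlane
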